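import Pool.Agent.Helper31.CY.St2

set_option autoImplicit false

open Set Topology Filter

namespace Pool.Agent.Helper95.CY

open Pool.Agent.Helper31.CY

theorem hCL2 (hCTF : StCTF) (hDSC : StDSC) (hRHO : StRHO) (hLVL : StLVL) (hLOA : StLOA)
    (hCVX : StCVX) (hKK : StKK) (hDK : StDK) (hSEG : StSEG) : StCL2 := by
  intro N r0 r1 h hN
  by_cases hS : Sg N r0 r1 h
  swap
  · exact Or.inl (hDSC N r0 r1 h hN hS)
  right
  obtain ⟨R0, R1, R2, _⟩ := hRHO N r0 r1 h hN hS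
  obtain ⟨L1, _⟩ := hLVL N r0 r1 h hN
  obtain ⟨A1, A2, _⟩ := hLOA N r0 r1 h hN hS
  obtain ⟨C1, _, _⟩ := hCVX N r0 r1 h hN hS
  have graph : ∀ x : ℝ × ℝ, 0 ≤ x.2 → x.2 ≤ h → x.1 = rho N x.2 → x ∈ N := by
    intro x h1 h2 h3
    have h4 := (R2 x.2 ⟨h1, h2⟩).1
    rw [← h3] at h4
    exact h4
  rcases hKK N r0 r1 h hN hS with ⟨K1, K2, K3⟩ | ⟨t, ht, K3, K4, K5, ε, hε, K6, K7⟩
  · left
    refine ⟨?_, K2⟩
    obtain ⟨m, ε, hε, hm, _⟩ := A2
    have F := hSEG (rho N) 0 h m hN.h0 C1 (R2 0 ⟨le_refl _, hN.h0.le⟩).2.1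
      ⟨ε, hε, fun s hs => by
        have h1 : s ∈ Ico 0 ε := by
          rw [zero_add] at hs
          exact hs
        rw [hm s h1, R0, sub_zero]⟩
      (fun t ht => ⟨(R2 t ⟨ht.1.le, ht.2.le⟩).2.1, by
        obtain ⟨m', ε', h1, h2, _⟩ := (A1 t ht).2 (K3 t ht)
        exact ⟨m', ε', h1, h2⟩⟩)
    refine ⟨m, fun x => ⟨fun hx => ?_, fun hx => ?_⟩⟩
    · have h1 := L1 x hx
      refine ⟨h1.1, h1.2, ?_⟩
      rw [K1 x hx, F x.2 h1, R0, sub_zero]
    · refine graph x hx.1 hx.2.1 ?_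
      rw [hx.2.2, F x.2 ⟨hx.1, hx.2.1⟩, R0, sub_zero]
  · right
    have ht' : t ∈ Icc 0 h := ⟨ht.1.le, ht.2.le⟩
    have hpos := (R2 t ht').2.1
    refine ⟨rho N t, t, hpos, ht.1, ht.2, ?_⟩
    have F1 := hSEG (rho N) t h (1 / Real.sqrt 3) ht.2
      (C1.mono (Icc_subset_Icc_left ht.1.le)) hpos ⟨ε, hε, K7⟩
      (fun s hs => ⟨(R2 s ⟨(ht.1.trans hs.1).le, hs.2.le⟩).2.1, by
        have hs' : s ∈ Ioo 0 h := ⟨ht.1.trans hs.1, hs.2⟩
        obtain ⟨m', ε', h1, h2, _⟩ := (A1 s hs').2 (K3 s hs' hs.1.ne')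
        exact ⟨m', ε', h1, h2⟩⟩)
    have hmaps : MapsTo (fun s : ℝ => t - s) (Icc 0 t) (Icc 0 h) := by
      intro s hs
      exact ⟨by linarith [hs.2], by linarith [hs.1, ht.2]⟩
    have hcont : ContinuousOn (fun s : ℝ => rho N (t - s)) (Icc 0 t) :=
      C1.comp (continuous_const.sub continuous_id).continuousOn hmaps
    have e0 : rho N (t - 0) = rho N t := by rw [sub_zero]
    have F2 := hSEG (fun s => rho N (t - s)) 0 t (1 / Real.sqrt 3) ht.1 hcont
      (by show 0 < rho N (t - 0); rw [e0]; exact hpos)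
      ⟨ε, hε, fun s hs => by
        show rho N (t - s) = cat (rho N (t - 0)) (1 / Real.sqrt 3) (s - 0)
        rw [zero_add] at hs
        rw [e0, sub_zero, K6 (t - s) ⟨by linarith [hs.2], by linarith [hs.1]⟩]
        have e1 : t - s - t = -s := by ring
        rw [e1]
        exact (hCTF (rho N t) (1 / Real.sqrt 3) hpos).2.2.2.2.2.2.2.1 s⟩
      (fun u hu => by
        have hu' : t - u ∈ Ioo 0 h := ⟨by linarith [hu.2], by linarith [hu.1, ht.2]⟩
        have hp := (R2 (t - u) ⟨hu'.1.le, hu'.2.le⟩).2.1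
        refine ⟨hp, ?_⟩
        obtain ⟨m', ε', h1, h2, _⟩ := (A1 (t - u) hu').2 (K3 (t - u) hu' (by linarith [hu.1]))
        refine ⟨-m', ε', h1, fun s hs => ?_⟩
        show rho N (t - s) = cat (rho N (t - u)) (-m') (s - u)
        have e1 : t - s - (t - u) = -(s - u) := by ring
        have h3 := h2 (t - s) (by rw [e1, abs_neg]; exact hs)
        rw [h3, e1]
        have h4 := (hCTF (rho N (t - u)) (-m') hp).2.2.2.2.2.2.2.1 (s - u)
        rw [neg_neg] at h4
        exact h4)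
    have F3 : ∀ s ∈ Icc 0 h, rho N s = cat (rho N t) (1 / Real.sqrt 3) |s - t| := by
      intro s hs
      rcases le_total t s with hts | hts
      · rw [F1 s ⟨hts, hs.2⟩, abs_of_nonneg (by linarith)]
      · have h1 := F2 (t - s) ⟨by linarith, by linarith [hs.1]⟩
        have e1 : t - (t - s) = s := by ring
        rw [e1, e0, sub_zero] at h1
        rw [h1, abs_of_nonpos (by linarith)]
        have e2 : -(s - t) = t - s := by ring
        rw [e2]
    intro x
    constructor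
    · intro hx
      have h1 := L1 x hx
      by_cases hg : x.1 = rho N x.2
      · left
        refine ⟨h1.1, h1.2, ?_⟩
        rw [hg]
        exact F3 x.2 h1
      · right
        have h2 := K4 x hx hg
        refine ⟨h2, hN.nn x hx, ?_⟩
        have h3 : (x.1, t) ∈ N := by
          rw [← h2]
          exact hx
        exact (R2 t ht').2.2 x.1 h3
    · rintro (⟨h1, h2, h3⟩ | ⟨h1, h2, h3⟩)
      · refine graph x h1 h2 ?_
        rw [h3]
        exact (F3 x.2 ⟨h1, h2⟩).symm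
      · have h4 := hDK N r0 r1 h hN hS t ht K4 K5 x.1 h2 h3
        rw [← h1] at h4
        exact h4

end Pool.Agent.Helper95.CY
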