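import Pool.Agent.Helper31.CY.St1

set_option autoImplicit false

open Set Topology Filter

namespace Pool.Agent.Helper95.CY

open Pool.Agent.Helper31.CY

private lemma mem_tri (w : ℝ × ℝ) : w ∈ tri ↔ (0 ≤ w.1 ∧ w.2 = 0) ∨
    (w.1 ≤ 0 ∧ w.2 = -(Real.sqrt 3 * w.1)) ∨ (w.1 ≤ 0 ∧ w.2 = Real.sqrt 3 * w.1) := by
  constructor
  · rintro ⟨t, ht, h | h | h⟩
    · left
      rw [h]
      exact ⟨ht, rfl⟩
    · right; left
      rw [h]
      refine ⟨by show -(t / 2) ≤ 0; linarith, ?_⟩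
      show Real.sqrt 3 / 2 * t = -(Real.sqrt 3 * (-(t / 2)))
      ring
    · right; right
      rw [h]
      refine ⟨by show -(t / 2) ≤ 0; linarith, ?_⟩
      show -(Real.sqrt 3 / 2 * t) = Real.sqrt 3 * (-(t / 2))
      ring
  · rintro (⟨h1, h2⟩ | ⟨h1, h2⟩ | ⟨h1, h2⟩)
    · exact ⟨w.1, h1, Or.inl (Prod.ext rfl h2)⟩
    · refine ⟨-(2 * w.1), by linarith, Or.inr (Or.inl (Prod.ext ?_ ?_))⟩
      · show w.1 = -(-(2 * w.1) / 2)
        ring
      · show w.2 = Real.sqrt 3 / 2 * (-(2 * w.1))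
        rw [h2]; ring
    · refine ⟨-(2 * w.1), by linarith, Or.inr (Or.inr (Prod.ext ?_ ?_))⟩
      · show w.1 = -(-(2 * w.1) / 2)
        ring
      · show w.2 = -(Real.sqrt 3 / 2 * (-(2 * w.1)))
        rw [h2]; ring

private lemma tri_closed : IsClosed tri := by
  have h : tri = ({w : ℝ × ℝ | 0 ≤ w.1} ∩ {w : ℝ × ℝ | w.2 = 0}) ∪
      (({w : ℝ × ℝ | w.1 ≤ 0} ∩ {w : ℝ × ℝ | w.2 = -(Real.sqrt 3 * w.1)}) ∪
      ({w : ℝ × ℝ | w.1 ≤ 0} ∩ {w : ℝ × ℝ | w.2 = Real.sqrt 3 * w.1})) := by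
    ext w
    rw [mem_tri]
    rfl
  rw [h]
  refine IsClosed.union ?_ (IsClosed.union ?_ ?_)
  · exact (isClosed_le continuous_const continuous_fst).inter
      (isClosed_eq continuous_snd continuous_const)
  · exact (isClosed_le continuous_fst continuous_const).inter
      (isClosed_eq continuous_snd (continuous_const.mul continuous_fst).neg)
  · exact (isClosed_le continuous_fst continuous_const).inter
      (isClosed_eq continuous_snd (continuous_const.mul continuous_fst))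

private lemma tri_scale (l : ℝ) (hl : 0 ≤ l) (y : ℝ × ℝ) (hy : y ∈ tri) : l • y ∈ tri := by
  obtain ⟨t, ht, h⟩ := hy
  refine ⟨l * t, mul_nonneg hl ht, ?_⟩
  rcases h with h | h | h
  · left
    rw [h]
    refine Prod.ext rfl ?_
    show l * 0 = 0
    ring
  · right; left
    rw [h]
    refine Prod.ext ?_ ?_
    · show l * (-(t / 2)) = -(l * t / 2)
      ring
    · show l * (Real.sqrt 3 / 2 * t) = Real.sqrt 3 / 2 * (l * t)
      ring
  · right; right
    rw [h]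
    refine Prod.ext ?_ ?_
    · show l * (-(t / 2)) = -(l * t / 2)
      ring
    · show l * (-(Real.sqrt 3 / 2 * t)) = -(Real.sqrt 3 / 2 * (l * t))
      ring

private lemma tri_neg (a b : ℝ) (h1 : (a, b) ∈ tri) (h2 : (-a, -b) ∈ tri) : a = 0 ∧ b = 0 := by
  have h3 : 0 < Real.sqrt 3 := Real.sqrt_pos.2 (by norm_num)
  rw [mem_tri] at h1 h2
  simp only at h1 h2
  have key : Real.sqrt 3 * a = 0 → a = 0 := fun h => by
    rcases mul_eq_zero.1 h with h | h
    · exact absurd h h3.ne'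
    · exact h
  have ha : a = 0 := by
    rcases h1 with ⟨p1, p2⟩ | ⟨p1, p2⟩ | ⟨p1, p2⟩ <;>
      rcases h2 with ⟨q1, q2⟩ | ⟨q1, q2⟩ | ⟨q1, q2⟩ <;>
      first
        | linarith
        | (apply key; nlinarith)
  refine ⟨ha, ?_⟩
  subst ha
  rcases h1 with ⟨p1, p2⟩ | ⟨p1, p2⟩ | ⟨p1, p2⟩
  · exact p2
  · rw [p2]; ring
  · rw [p2]; ring

private lemma tri_rays (w : ℝ × ℝ) :
    w ∈ tri ↔ ∃ (i : Fin 3) (t : ℝ), 0 ≤ t ∧ w = t • td i := by
  constructor
  · rintro ⟨t, ht, h | h | h⟩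
    · refine ⟨0, t, ht, ?_⟩
      rw [h]
      show (t, (0 : ℝ)) = t • ((1 : ℝ), (0 : ℝ))
      refine Prod.ext ?_ ?_
      · show t = t * 1
        ring
      · show (0 : ℝ) = t * 0
        ring
    · refine ⟨1, t, ht, ?_⟩
      rw [h]
      show (-(t / 2), Real.sqrt 3 / 2 * t) = t • ((-(1 / 2) : ℝ), Real.sqrt 3 / 2)
      refine Prod.ext ?_ ?_
      · show -(t / 2) = t * (-(1 / 2))
        ring
      · show Real.sqrt 3 / 2 * t = t * (Real.sqrt 3 / 2)
        ring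
    · refine ⟨2, t, ht, ?_⟩
      rw [h]
      show (-(t / 2), -(Real.sqrt 3 / 2 * t)) = t • ((-(1 / 2) : ℝ), -(Real.sqrt 3 / 2))
      refine Prod.ext ?_ ?_
      · show -(t / 2) = t * (-(1 / 2))
        ring
      · show -(Real.sqrt 3 / 2 * t) = t * (-(Real.sqrt 3 / 2))
        ring
  · rintro ⟨i, t, ht, h⟩
    refine ⟨t, ht, ?_⟩
    fin_cases i
    · left
      rw [h]
      show t • ((1 : ℝ), (0 : ℝ)) = (t, 0)
      refine Prod.ext ?_ ?_
      · show t * 1 = t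
        ring
      · show t * 0 = 0
        ring
    · right; left
      rw [h]
      show t • ((-(1 / 2) : ℝ), Real.sqrt 3 / 2) = (-(t / 2), Real.sqrt 3 / 2 * t)
      refine Prod.ext ?_ ?_
      · show t * (-(1 / 2)) = -(t / 2)
        ring
      · show t * (Real.sqrt 3 / 2) = Real.sqrt 3 / 2 * t
        ring
    · right; right
      rw [h]
      show t • ((-(1 / 2) : ℝ), -(Real.sqrt 3 / 2)) = (-(t / 2), -(Real.sqrt 3 / 2 * t))
      refine Prod.ext ?_ ?_
      · show t * (-(1 / 2)) = -(t / 2)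
        ring
      · show t * (-(Real.sqrt 3 / 2)) = -(Real.sqrt 3 / 2 * t)
        ring

theorem hMDY : StMDY := by
  refine ⟨?_, ?_, ?_, tri_closed, tri_scale, ?_, ?_, tri_rays⟩
  · have hc : Continuous fun v : E3 => ((v 0, v 1) : ℝ × ℝ) := by
      fun_prop
    exact tri_closed.preimage hc
  · intro l hl y hy
    exact tri_scale l hl (y 0, y 1) hy
  · intro w hw
    have h0 : (0 : E3) ∈ Ycone := by
      show (((0 : E3) 0, (0 : E3) 1) : ℝ × ℝ) ∈ tri
      refine ⟨0, le_refl _, Or.inl ?_⟩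
      rfl
    have h1 := hw 0 h0 1
    have h2 := hw 0 h0 (-1)
    have e1 : (0 : E3) + (1 : ℝ) • w = w := by simp
    have e2 : (0 : E3) + (-1 : ℝ) • w = -w := by simp
    rw [e1] at h1
    rw [e2] at h2
    exact tri_neg (w 0) (w 1) h1 h2
  · refine ⟨1, by norm_num, Or.inl rfl⟩
  · intro h
    have h3 := tri_neg 1 0 ⟨1, by norm_num, Or.inl rfl⟩ (by
      have e : ((-1 : ℝ), -(0 : ℝ)) = (-1, 0) := by norm_num
      rw [e]; exact h)
    exact absurd h3.1 one_ne_zero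

end Pool.Agent.Helper95.CY
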